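import Pool.Agent.Helper22.G4.St.C0

/-!
# G4-C11: separation, pairs of flats none of which is a gadget quadrangle
-/

namespace Pool.Agent.Helper74.G4

open Pool.Agent.Helper22.G4

/-- the facet `f` lies on the page `a` -/
def HasPg (f : Fc) (a : ℕ) : Prop := a = f.1.1 ∨ a = f.1.2.1 ∨ a = f.1.2.2

/-- `f` is a slope facet -/
def Slp (N : ℕ) (f : Fc) : Prop :=
  f.2.1.1 = f.2.1.2 ∧ f.2.2.1.1 = decide (f.2.1.1 = 0) ∧ f.2.2.1.2 = decide (f.2.1.1 = N)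

theorem slp_F (N s a : ℕ) : Slp N (Fc.F N s a) := ⟨rfl, rfl, rfl⟩
theorem slp_G (N a b g : ℕ) (s : ℕ × Bool) : Slp N (Fc.G N a b g s) := ⟨rfl, rfl, rfl⟩

theorem n_opd {I : NF} {d : OpD} (hI : I.OK) (hd : d ∈ I.opds) : 4 * d.n + 4 ≤ I.M :=
  (NF.opd_ok hI hd).1

theorem fcases {I : NF} (hI : I.OK) {f : Fc} (hf : f ∈ I.data.fcodes) :
    f = Fc.Q I.N 0 1 ∨ (∃ b s, 1 ≤ b ∧ b + 1 ≤ I.M ∧ s ≤ I.N ∧ f = Fc.F I.N s b) ∨
    (∃ d ∈ I.opds, f = Fc.Q I.N d.pd (d.nxt I.M)) ∨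
    (∃ a g, 1 ≤ a ∧ a ≤ I.M ∧ (f = Fc.GX I.N a g ∨ f = Fc.GY I.N a g)) ∨
    (∃ g, f = Fc.T0 I.M I.N g) ∨
    (∃ a b g s e, 1 ≤ a ∧ 1 ≤ b ∧ a ≤ I.M ∧ b ≤ I.M ∧ (a = b + 1 ∨ b = a + 1) ∧
      f = Fc.G I.N a b g (s, e)) := by
  rcases NF.mem_fcodes.1 hf with h | ⟨a, s, h1, h2, h3, h4⟩ | ⟨d, hd, h⟩
  · exact Or.inl h
  · exact Or.inr (Or.inl ⟨a, s, h1, h2, h3, h4⟩)
  · have hn := n_opd hI hd
    have ha : 1 ≤ d.pa ∧ d.pa ≤ I.M := by simp only [OpD.pa]; omega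
    have hb : 1 ≤ d.pb ∧ d.pb ≤ I.M := by simp only [OpD.pb]; omega
    have hc : 1 ≤ d.pc ∧ d.pc ≤ I.M := by simp only [OpD.pc]; omega
    have hd' : 1 ≤ d.pd ∧ d.pd ≤ I.M := by simp only [OpD.pd]; omega
    have hba : d.pb = d.pa + 1 := rfl
    have hcb : d.pc = d.pb + 1 := rfl
    have hdc : d.pd = d.pc + 1 := rfl
    simp only [OpD.facets, List.mem_cons, List.not_mem_nil, or_false] at h
    rcases h with h | h | h | h | h | h | h | h | h | h | h | h | h | h | h | h | h | h | h | h |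
      h | h | h | h | h | h | h
    · exact Or.inr (Or.inr (Or.inl ⟨d, hd, h⟩))
    · exact Or.inr (Or.inr (Or.inr (Or.inl ⟨_, _, hb.1, hb.2, Or.inl h⟩)))
    · exact Or.inr (Or.inr (Or.inr (Or.inl ⟨_, _, ha.1, ha.2, Or.inr h⟩)))
    · exact Or.inr (Or.inr (Or.inr (Or.inr (Or.inl ⟨_, h⟩))))
    · exact Or.inr (Or.inr (Or.inr (Or.inl ⟨_, _, hb.1, hb.2, Or.inl h⟩)))
    · exact Or.inr (Or.inr (Or.inr (Or.inl ⟨_, _, hc.1, hc.2, Or.inr h⟩)))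
    · exact Or.inr (Or.inr (Or.inr (Or.inr (Or.inl ⟨_, h⟩))))
    · exact Or.inr (Or.inr (Or.inr (Or.inl ⟨_, _, hc.1, hc.2, Or.inl h⟩)))
    · exact Or.inr (Or.inr (Or.inr (Or.inl ⟨_, _, hd'.1, hd'.2, Or.inr h⟩)))
    · exact Or.inr (Or.inr (Or.inr (Or.inr (Or.inl ⟨_, h⟩))))
    · exact Or.inr (Or.inr (Or.inr (Or.inr (Or.inr ⟨_, _, _, _, _, hb.1, ha.1, hb.2, ha.2, Or.inl hba, h⟩))))
    · exact Or.inr (Or.inr (Or.inr (Or.inr (Or.inr ⟨_, _, _, _, _, hb.1, ha.1, hb.2, ha.2, Or.inl hba, h⟩))))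
    · exact Or.inr (Or.inr (Or.inr (Or.inr (Or.inr ⟨_, _, _, _, _, hb.1, ha.1, hb.2, ha.2, Or.inl hba, h⟩))))
    · exact Or.inr (Or.inr (Or.inr (Or.inr (Or.inr ⟨_, _, _, _, _, hb.1, ha.1, hb.2, ha.2, Or.inl hba, h⟩))))
    · exact Or.inr (Or.inr (Or.inr (Or.inr (Or.inr ⟨_, _, _, _, _, hb.1, ha.1, hb.2, ha.2, Or.inl hba, h⟩))))
    · exact Or.inr (Or.inr (Or.inr (Or.inr (Or.inr ⟨_, _, _, _, _, hb.1, ha.1, hb.2, ha.2, Or.inl hba, h⟩))))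
    · exact Or.inr (Or.inr (Or.inr (Or.inr (Or.inr ⟨_, _, _, _, _, hb.1, hc.1, hb.2, hc.2, Or.inr hcb, h⟩))))
    · exact Or.inr (Or.inr (Or.inr (Or.inr (Or.inr ⟨_, _, _, _, _, hb.1, hc.1, hb.2, hc.2, Or.inr hcb, h⟩))))
    · exact Or.inr (Or.inr (Or.inr (Or.inr (Or.inr ⟨_, _, _, _, _, hb.1, hc.1, hb.2, hc.2, Or.inr hcb, h⟩))))
    · exact Or.inr (Or.inr (Or.inr (Or.inr (Or.inr ⟨_, _, _, _, _, hb.1, hc.1, hb.2, hc.2, Or.inr hcb, h⟩))))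
    · exact Or.inr (Or.inr (Or.inr (Or.inr (Or.inr ⟨_, _, _, _, _, hb.1, hc.1, hb.2, hc.2, Or.inr hcb, h⟩))))
    · exact Or.inr (Or.inr (Or.inr (Or.inr (Or.inr ⟨_, _, _, _, _, hb.1, hc.1, hb.2, hc.2, Or.inr hcb, h⟩))))
    · exact Or.inr (Or.inr (Or.inr (Or.inr (Or.inr ⟨_, _, _, _, _, hc.1, hd'.1, hc.2, hd'.2, Or.inr hdc, h⟩))))
    · exact Or.inr (Or.inr (Or.inr (Or.inr (Or.inr ⟨_, _, _, _, _, hc.1, hd'.1, hc.2, hd'.2, Or.inr hdc, h⟩))))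
    · exact Or.inr (Or.inr (Or.inr (Or.inr (Or.inr ⟨_, _, _, _, _, hc.1, hd'.1, hc.2, hd'.2, Or.inr hdc, h⟩))))
    · exact Or.inr (Or.inr (Or.inr (Or.inr (Or.inr ⟨_, _, _, _, _, hc.1, hd'.1, hc.2, hd'.2, Or.inr hdc, h⟩))))
    · exact Or.inr (Or.inr (Or.inr (Or.inr (Or.inr ⟨_, _, _, _, _, hc.1, hd'.1, hc.2, hd'.2, Or.inr hdc, h⟩))))

/-- facets on page `0` and page `a` -/
theorem page_zero {I : NF} (hI : I.OK) {f : Fc} (hf : f ∈ I.data.fcodes) {a : ℕ} (ha : 1 ≤ a)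
    (h0 : HasPg f 0) (h1 : HasPg f a) :
    (∃ b s, 1 ≤ b ∧ b + 1 ≤ I.M ∧ (a = b ∨ a = b + 1) ∧ f = Fc.F I.N s b) ∨
      (a = 1 ∧ f = Fc.Q I.N 0 1) ∨ (a = I.M ∧ f = Fc.Q I.N I.M 0) := by
  rcases fcases hI hf with h | ⟨b, s, h2, h3, h4, h⟩ | ⟨d, hd, h⟩ | ⟨b, g, h2, h3, h | h⟩ |
    ⟨g, h⟩ | ⟨b, c, g, s, e, h2, h3, h4, h5, h6, h⟩ <;> subst h
  · simp only [HasPg, Fc.Q] at h1
    exact Or.inr (Or.inl ⟨by omega, rfl⟩)
  · simp only [HasPg, Fc.F] at h1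
    exact Or.inl ⟨b, s, h2, h3, by omega, rfl⟩
  · have hn := n_opd hI hd
    simp only [HasPg, Fc.Q, OpD.pd, OpD.nxt] at h0 h1
    have h5 : 4 * d.n + 4 = I.M := by
      by_contra hne
      rw [if_neg hne] at h0
      omega
    rw [if_pos h5] at h1
    refine Or.inr (Or.inr ⟨by omega, ?_⟩)
    simp only [OpD.pd, OpD.nxt, h5, if_true]
  · simp only [HasPg, Fc.GX] at h0
    omega
  · simp only [HasPg, Fc.GY] at h0
    omega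
  · simp only [HasPg, Fc.T0] at h0
    omega
  · simp only [HasPg, Fc.G] at h0
    omega

/-- facets on two pages other than page `0` -/
theorem two_pages {I : NF} (hI : I.OK) {f : Fc} (hf : f ∈ I.data.fcodes) {a a' : ℕ} (ha : 1 ≤ a)
    (ha' : 1 ≤ a') (hne : a ≠ a') (h0 : HasPg f a) (h1 : HasPg f a') :
    ((a = a' + 1 ∨ a' = a + 1) ∧ Slp I.N f) ∨ (∃ d ∈ I.opds, f = Fc.Q I.N d.pd (d.nxt I.M) ∧
      4 * d.n + 4 ≠ I.M ∧ ((a = 4 * d.n + 4 ∧ a' = 4 * d.n + 5) ∨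
        (a' = 4 * d.n + 4 ∧ a = 4 * d.n + 5))) := by
  rcases fcases hI hf with h | ⟨b, s, h2, h3, h4, h⟩ | ⟨d, hd, h⟩ | ⟨b, g, h2, h3, h | h⟩ |
    ⟨g, h⟩ | ⟨b, c, g, s, e, h2, h3, h4, h5, h6, h⟩ <;> subst h
  · simp only [HasPg, Fc.Q] at h0 h1
    omega
  · simp only [HasPg, Fc.F] at h0 h1
    exact Or.inl ⟨by omega, slp_F _ _ _⟩
  · simp only [HasPg, Fc.Q, OpD.pd, OpD.nxt] at h0 h1
    refine Or.inr ⟨d, hd, rfl, ?_⟩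
    by_cases h5 : 4 * d.n + 4 = I.M
    · rw [if_pos h5] at h0 h1
      omega
    · rw [if_neg h5] at h0 h1
      omega
  · simp only [HasPg, Fc.GX] at h0 h1
    omega
  · simp only [HasPg, Fc.GY] at h0 h1
    omega
  · simp only [HasPg, Fc.T0] at h0 h1
    omega
  · simp only [HasPg, Fc.G] at h0 h1
    exact Or.inl ⟨by omega, slp_G _ _ _ _ _⟩

/-- `R` is the flat of page `a` -/
def PgF (I : NF) (R : Flat Vx Fc) (a : ℕ) : Prop := ∃ d ∈ I.opds,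
  (a = d.pa ∧ (OpD.flats I.M I.N d)[0]? = some R) ∨ (a = d.pb ∧ (OpD.flats I.M I.N d)[1]? = some R) ∨
  (a = d.pc ∧ (OpD.flats I.M I.N d)[2]? = some R) ∨ (a = d.pd ∧ (OpD.flats I.M I.N d)[3]? = some R)

/-- `R` is the quadrangle with page `0` of page `a` at slope `s` -/
def SqF (I : NF) (R : Flat Vx Fc) (a s : ℕ) : Prop := ∃ d ∈ I.opds,
  (a = d.pa ∧ s = d.z ∧ R = OpD.squad I.M I.N d.pa 0 d.z d.x) ∨
  (a = d.pb ∧ s = d.y ∧ R = OpD.squad I.M I.N d.pb 0 d.y d.i) ∨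
  (a = d.pb ∧ s = d.i ∧ R = OpD.squad I.M I.N d.pb d.y d.i d.x) ∨
  (a = d.pb ∧ s = d.x ∧ R = OpD.squad I.M I.N d.pb d.i d.x I.N) ∨
  (a = d.pc ∧ s = d.v ∧ R = OpD.squad I.M I.N d.pc d.y d.v I.N) ∨
  (a = d.pd ∧ s = d.w ∧ R = OpD.squad I.M I.N d.pd 0 d.w I.N)

theorem kinds {I : NF} {R : Flat Vx Fc}
    (hR : R = I.page0 ∨ ∃ d ∈ I.opds, R ∈ (OpD.flats I.M I.N d).take 10) :
    R = I.page0 ∨ (∃ a, PgF I R a) ∨ ∃ a s, SqF I R a s := by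
  rcases hR with h | ⟨d, hd, h⟩
  · exact Or.inl h
  · right
    simp only [OpD.flats, List.take_succ_cons, List.take_zero, List.mem_cons, List.not_mem_nil,
      or_false] at h
    rcases h with h | h | h | h | h | h | h | h | h | h
    · exact Or.inl ⟨_, d, hd, Or.inl ⟨rfl, by simp [OpD.flats, h]⟩⟩
    · exact Or.inl ⟨_, d, hd, Or.inr (Or.inl ⟨rfl, by simp [OpD.flats, h]⟩)⟩
    · exact Or.inl ⟨_, d, hd, Or.inr (Or.inr (Or.inl ⟨rfl, by simp [OpD.flats, h]⟩))⟩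
    · exact Or.inl ⟨_, d, hd, Or.inr (Or.inr (Or.inr ⟨rfl, by simp [OpD.flats, h]⟩))⟩
    · exact Or.inr ⟨_, _, d, hd, Or.inl ⟨rfl, rfl, h⟩⟩
    · exact Or.inr ⟨_, _, d, hd, Or.inr (Or.inl ⟨rfl, rfl, h⟩)⟩
    · exact Or.inr ⟨_, _, d, hd, Or.inr (Or.inr (Or.inl ⟨rfl, rfl, h⟩))⟩
    · exact Or.inr ⟨_, _, d, hd, Or.inr (Or.inr (Or.inr (Or.inl ⟨rfl, rfl, h⟩)))⟩
    · exact Or.inr ⟨_, _, d, hd, Or.inr (Or.inr (Or.inr (Or.inr (Or.inl ⟨rfl, rfl, h⟩))))⟩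
    · exact Or.inr ⟨_, _, d, hd, Or.inr (Or.inr (Or.inr (Or.inr (Or.inr ⟨rfl, rfl, h⟩))))⟩

theorem PgF.range {I : NF} (hI : I.OK) {R : Flat Vx Fc} {a : ℕ} (h : PgF I R a) :
    1 ≤ a ∧ a ≤ I.M := by
  obtain ⟨d, hd, h⟩ := h
  have hn := n_opd hI hd
  simp only [OpD.pa, OpD.pb, OpD.pc, OpD.pd] at h
  omega

theorem PgF.unique {I : NF} {R S : Flat Vx Fc} {a : ℕ} (h : PgF I R a)
    (h' : PgF I S a) : R = S := by
  obtain ⟨d, hd, h⟩ := h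
  obtain ⟨e, he, h'⟩ := h'
  have hde : d = e := by
    apply NF.opds_inj hd he
    simp only [OpD.pa, OpD.pb, OpD.pc, OpD.pd] at h h'
    omega
  subst hde
  simp only [OpD.pa, OpD.pb, OpD.pc, OpD.pd] at h h'
  rcases h with ⟨h1, h2⟩ | ⟨h1, h2⟩ | ⟨h1, h2⟩ | ⟨h1, h2⟩ <;>
  rcases h' with ⟨h3, h4⟩ | ⟨h3, h4⟩ | ⟨h3, h4⟩ | ⟨h3, h4⟩ <;>
  first
    | omega
    | exact Option.some.inj (h2.symm.trans h4)

/-- the special edge of the flat of page `a` -/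
theorem PgF.edge {I : NF} {R : Flat Vx Fc} {a : ℕ} (h : PgF I R a) {f : Fc}
    (hf : I.data.eIn R f = true) : HasPg f a ∧ (a % 2 = 1 → f.2.2.1.2 = true) ∧
      (a % 2 = 0 → f.2.2.1.1 = true) := by
  obtain ⟨d, hd, h⟩ := h
  rcases h with ⟨h1, h2⟩ | ⟨h1, h2⟩ | ⟨h1, h2⟩ | ⟨h1, h2⟩ <;>
  (subst h1
   simp only [OpD.flats, List.getElem?_cons_zero, List.getElem?_cons_succ, Option.some.injEq] at h2
   subst h2
   simp only [Data.eIn, NF.data, List.take_succ_cons, List.take_zero, List.all_cons, List.all_nil,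
     Bool.and_true, Bool.and_eq_true, Fc.mem_b1, Fc.mem_b2, Fc.mem_u] at hf
   refine ⟨hf.2.1, fun h => ?_, fun h => ?_⟩ <;>
   first
     | exact hf.1
     | (simp only [OpD.pa, OpD.pb, OpD.pc, OpD.pd] at h; omega))

theorem SqF.range {I : NF} (hI : I.OK) {R : Flat Vx Fc} {a s : ℕ} (h : SqF I R a s) :
    1 ≤ a ∧ a ≤ I.M ∧ 4 ≤ s ∧ s + 2 ≤ I.N ∧ s % 2 = 0 := by
  obtain ⟨d, hd, h⟩ := h
  have hn := NF.opd_ok hI hd
  simp only [OpD.pa, OpD.pb, OpD.pc, OpD.pd] at h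
  omega

theorem SqF.edge {I : NF} (hI : I.OK) {R : Flat Vx Fc} {a s : ℕ} (h : SqF I R a s) {f : Fc}
    (hf : I.data.eIn R f = true) : HasPg f 0 ∧ HasPg f a ∧ s ≤ f.2.1.2 + 1 ∧ f.2.1.1 ≤ s := by
  obtain ⟨d, hd, h⟩ := h
  rcases h with ⟨h1, h2, h3⟩ | ⟨h1, h2, h3⟩ | ⟨h1, h2, h3⟩ | ⟨h1, h2, h3⟩ | ⟨h1, h2, h3⟩ |
    ⟨h1, h2, h3⟩ <;>
  (subst h1
   subst h2
   subst h3
   simp only [Data.eIn, NF.data, OpD.squad, List.take_succ_cons, List.take_zero, List.all_cons,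
     List.all_nil, Bool.and_true, Bool.and_eq_true, Fc.mem_u] at hf
   refine ⟨hf.1.1, hf.2.1, ?_, ?_⟩ <;> omega)

theorem SqF.unique {I : NF} (hI : I.OK) {R S : Flat Vx Fc} {a s : ℕ} (h : SqF I R a s)
    (h' : SqF I S a s) : R = S := by
  obtain ⟨d, hd, h⟩ := h
  obtain ⟨e, he, h'⟩ := h'
  have hde : d = e := by
    apply NF.opds_inj hd he
    simp only [OpD.pa, OpD.pb, OpD.pc, OpD.pd] at h h'
    omega
  subst hde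
  have hn := NF.opd_ok hI hd
  rcases h with ⟨h1, h2, h3⟩ | ⟨h1, h2, h3⟩ | ⟨h1, h2, h3⟩ | ⟨h1, h2, h3⟩ | ⟨h1, h2, h3⟩ |
    ⟨h1, h2, h3⟩ <;>
  rcases h' with ⟨h4, h5, h6⟩ | ⟨h4, h5, h6⟩ | ⟨h4, h5, h6⟩ | ⟨h4, h5, h6⟩ | ⟨h4, h5, h6⟩ |
    ⟨h4, h5, h6⟩ <;>
  first
    | exact h3.trans h6.symm
    | (simp only [OpD.pa, OpD.pb, OpD.pc, OpD.pd] at h1 h4; omega)

theorem SqF.adjacent {I : NF} (hI : I.OK) {R S : Flat Vx Fc} {a s : ℕ} (h : SqF I R a s)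
    (h' : SqF I S (a + 1) s) : False := by
  obtain ⟨d, hd, h⟩ := h
  obtain ⟨e, he, h'⟩ := h'
  have hn := NF.opd_ok hI hd
  have hm := NF.opd_ok hI he
  simp only [OpD.pa, OpD.pb, OpD.pc, OpD.pd] at h h'
  by_cases hde : d.n = e.n
  · have := NF.opds_inj hd he hde
    subst this
    rcases h with ⟨h1, h2, h3⟩ | ⟨h1, h2, h3⟩ | ⟨h1, h2, h3⟩ | ⟨h1, h2, h3⟩ | ⟨h1, h2, h3⟩ |
      ⟨h1, h2, h3⟩ <;>
    rcases h' with ⟨h4, h5, h6⟩ | ⟨h4, h5, h6⟩ | ⟨h4, h5, h6⟩ | ⟨h4, h5, h6⟩ | ⟨h4, h5, h6⟩ |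
      ⟨h4, h5, h6⟩ <;>
    omega
  · rcases h with ⟨h1, h2, h3⟩ | ⟨h1, h2, h3⟩ | ⟨h1, h2, h3⟩ | ⟨h1, h2, h3⟩ | ⟨h1, h2, h3⟩ |
      ⟨h1, h2, h3⟩ <;>
    rcases h' with ⟨h4, h5, h6⟩ | ⟨h4, h5, h6⟩ | ⟨h4, h5, h6⟩ | ⟨h4, h5, h6⟩ | ⟨h4, h5, h6⟩ |
      ⟨h4, h5, h6⟩ <;>
    omega

theorem page0_edge {I : NF} (hI : I.OK) {f : Fc}
    (hf : I.data.eIn I.page0 f = true) : HasPg f 0 ∧ f.2.1.1 ≤ 2 ∧ 2 ≤ f.2.1.2 := by
  obtain ⟨-, -, hN, -⟩ := NF.size hI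
  obtain ⟨n, hn⟩ : ∃ n, I.N - 1 = n + 2 := ⟨I.N - 3, by omega⟩
  have h1 : (I.page0).1.take 2 = [Vx.u 0 1 2, Vx.u 0 2 3] := by
    simp only [NF.page0, hn, List.range_succ_eq_map]
    simp
  simp only [Data.eIn, h1, NF.data, List.all_cons, List.all_nil, Bool.and_true, Bool.and_eq_true,
    Fc.mem_u] at hf
  exact ⟨hf.1.1, by omega, by omega⟩

theorem fullcase {I : NF} (hI : I.OK) {f g : Fc} {a : ℕ}
    (hf : (a = 1 ∧ f = Fc.Q I.N 0 1) ∨ (a = I.M ∧ f = Fc.Q I.N I.M 0))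
    (hg : (a = 1 ∧ g = Fc.Q I.N 0 1) ∨ (a = I.M ∧ g = Fc.Q I.N I.M 0)) : f = g := by
  obtain ⟨hM, -⟩ := NF.size hI
  rcases hf with ⟨h1, h2⟩ | ⟨h1, h2⟩ <;> rcases hg with ⟨h3, h4⟩ | ⟨h3, h4⟩
  · rw [h2, h4]
  · omega
  · omega
  · rw [h2, h4]

/-- facet on page `0` and page `a`, not a slope facet -/
theorem full_of {I : NF} (hI : I.OK) {f : Fc} (hf : f ∈ I.data.fcodes) {a : ℕ} (ha : 1 ≤ a)
    (h0 : HasPg f 0) (h1 : HasPg f a)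
    (h : ∀ b s, (a = b ∨ a = b + 1) → 1 ≤ b → f = Fc.F I.N s b → False) :
    (a = 1 ∧ f = Fc.Q I.N 0 1) ∨ (a = I.M ∧ f = Fc.Q I.N I.M 0) := by
  rcases page_zero hI hf ha h0 h1 with ⟨b, s, h2, h3, h4, h5⟩ | h5
  · exact (h b s h4 h2 h5).elim
  · exact h5

theorem page0_PgF {I : NF} (hI : I.OK) {S : Flat Vx Fc} {a : ℕ} (hS : PgF I S a) {f : Fc}
    (hf : f ∈ I.data.fcodes) (h1 : I.data.eIn I.page0 f = true) (h2 : I.data.eIn S f = true) :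
    (a = 1 ∧ f = Fc.Q I.N 0 1) ∨ (a = I.M ∧ f = Fc.Q I.N I.M 0) := by
  obtain ⟨-, -, hN, -⟩ := NF.size hI
  obtain ⟨h3, h4, h5⟩ := page0_edge hI h1
  obtain ⟨h6, h7, h8⟩ := hS.edge h2
  refine full_of hI hf (hS.range hI).1 h3 h6 ?_
  intro b s hb hb1 h9
  subst h9
  simp only [Fc.F] at h4 h5 h7 h8
  have hs : s = 2 := by omega
  subst hs
  rcases Nat.mod_two_eq_zero_or_one a with h | h
  · have := h8 h
    simp at this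
  · have := h7 h
    simp at this
    omega

theorem page0_SqF {I : NF} (hI : I.OK) {S : Flat Vx Fc} {a s : ℕ} (hS : SqF I S a s) {f : Fc}
    (hf : f ∈ I.data.fcodes) (h1 : I.data.eIn I.page0 f = true) (h2 : I.data.eIn S f = true) :
    (a = 1 ∧ f = Fc.Q I.N 0 1) ∨ (a = I.M ∧ f = Fc.Q I.N I.M 0) := by
  obtain ⟨h3, h4, h5⟩ := page0_edge hI h1
  obtain ⟨h6, h7, h8, h9⟩ := hS.edge hI h2
  have hr := hS.range hI
  refine full_of hI hf hr.1 h3 h7 ?_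
  intro b t hb hb1 h10
  subst h10
  simp only [Fc.F] at h4 h5 h8 h9
  omega

theorem PgF_SqF {I : NF} (hI : I.OK) {R S : Flat Vx Fc} {a a' s : ℕ} (hR : PgF I R a')
    (hS : SqF I S a s) {f : Fc}
    (hf : f ∈ I.data.fcodes) (h1 : I.data.eIn R f = true) (h2 : I.data.eIn S f = true) :
    (a = 1 ∧ f = Fc.Q I.N 0 1) ∨ (a = I.M ∧ f = Fc.Q I.N I.M 0) := by
  obtain ⟨-, h4, h5⟩ := hR.edge h1
  obtain ⟨h6, h7, h8, h9⟩ := hS.edge hI h2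
  have hr := hS.range hI
  refine full_of hI hf hr.1 h6 h7 ?_
  intro b t hb hb1 h10
  subst h10
  simp only [Fc.F] at h4 h5 h8 h9
  rcases Nat.mod_two_eq_zero_or_one a' with h | h
  · have := h5 h
    simp at this
    omega
  · have := h4 h
    simp at this
    omega

theorem SqF_SqF {I : NF} (hI : I.OK) {R S : Flat Vx Fc} {a a' s s' : ℕ} (hRS : R ≠ S)
    (hR : SqF I R a s) (hS : SqF I S a' s') {f : Fc}
    (hf : f ∈ I.data.fcodes) (h1 : I.data.eIn R f = true) (h2 : I.data.eIn S f = true) :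
    (a = 1 ∧ f = Fc.Q I.N 0 1) ∨ (a = I.M ∧ f = Fc.Q I.N I.M 0) := by
  obtain ⟨h3, h4, h5, h5'⟩ := hR.edge hI h1
  obtain ⟨h6, h7, h8, h9⟩ := hS.edge hI h2
  have hr := hR.range hI
  have hs := hS.range hI
  refine full_of hI hf hr.1 h3 h4 ?_
  intro b t hb hb1 h10
  subst h10
  simp only [Fc.F, HasPg] at h4 h5 h5' h7 h8 h9
  have hss : s = s' := by omega
  subst hss
  have h11 : a = a' ∨ a' = a + 1 ∨ a = a' + 1 := by omega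
  rcases h11 with h | h | h
  · subst h
    exact hRS (hR.unique hI hS)
  · subst h
    exact SqF.adjacent hI hR hS
  · subst h
    exact SqF.adjacent hI hS hR

theorem PgF_PgF {I : NF} (hI : I.OK) {R S : Flat Vx Fc} {a a' : ℕ} (hRS : R ≠ S)
    (hR : PgF I R a) (hS : PgF I S a') {f : Fc}
    (hf : f ∈ I.data.fcodes) (h1 : I.data.eIn R f = true) (h2 : I.data.eIn S f = true) :
    ∃ d ∈ I.opds, f = Fc.Q I.N d.pd (d.nxt I.M) ∧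
      4 * d.n + 4 ≠ I.M ∧ ((a = 4 * d.n + 4 ∧ a' = 4 * d.n + 5) ∨
        (a' = 4 * d.n + 4 ∧ a = 4 * d.n + 5)) := by
  obtain ⟨-, -, hN, -⟩ := NF.size hI
  obtain ⟨h3, h4, h5⟩ := hR.edge h1
  obtain ⟨h6, h7, h8⟩ := hS.edge h2
  have hne : a ≠ a' := by
    rintro rfl
    exact hRS (hR.unique hS)
  rcases two_pages hI hf (hR.range hI).1 (hS.range hI).1 hne h3 h6 with ⟨h9, h10, h11, h12⟩ | h9
  · exfalso
    have h13 : f.2.2.1.1 = true ∧ f.2.2.1.2 = true := by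
      rcases Nat.mod_two_eq_zero_or_one a with h | h
      · exact ⟨h5 h, h7 (by omega)⟩
      · exact ⟨h8 (by omega), h4 h⟩
    rw [h11, h12] at h13
    simp only [decide_eq_true_eq] at h13
    omega
  · exact h9

/-- G4-C11 (separation, pairs of flats none of which is a gadget quadrangle). -/
theorem NF.sep_pages {I : NF} (hI : I.OK) (R S : Flat Vx Fc) (hRS : R ≠ S)
    (hR : R = I.page0 ∨ ∃ d ∈ I.opds, R ∈ (OpD.flats I.M I.N d).take 10)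
    (hS : S = I.page0 ∨ ∃ d ∈ I.opds, S ∈ (OpD.flats I.M I.N d).take 10) :
    ∀ f ∈ I.data.fcodes, ∀ g ∈ I.data.fcodes, I.data.eIn R f → I.data.eIn R g →
      I.data.eIn S f → I.data.eIn S g → f = g := by
  intro f hf g hg h1 h2 h3 h4
  rcases kinds hR with hR | ⟨a, hR⟩ | ⟨a, s, hR⟩ <;>
    rcases kinds hS with hS | ⟨a', hS⟩ | ⟨a', s', hS⟩
  · exact absurd (hR.trans hS.symm) hRS
  · subst hR
    exact fullcase hI (page0_PgF hI hS hf h1 h3) (page0_PgF hI hS hg h2 h4)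
  · subst hR
    exact fullcase hI (page0_SqF hI hS hf h1 h3) (page0_SqF hI hS hg h2 h4)
  · subst hS
    exact fullcase hI (page0_PgF hI hR hf h3 h1) (page0_PgF hI hR hg h4 h2)
  · obtain ⟨d, hd, h5, h6, h7⟩ := PgF_PgF hI hRS hR hS hf h1 h3
    obtain ⟨e, he, h8, h9, h10⟩ := PgF_PgF hI hRS hR hS hg h2 h4
    have : d = e := NF.opds_inj hd he (by omega)
    rw [h5, h8, this]
  · exact fullcase hI (PgF_SqF hI hR hS hf h1 h3) (PgF_SqF hI hR hS hg h2 h4)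
  · subst hS
    exact fullcase hI (page0_SqF hI hR hf h3 h1) (page0_SqF hI hR hg h4 h2)
  · exact fullcase hI (PgF_SqF hI hS hR hf h3 h1) (PgF_SqF hI hS hR hg h4 h2)
  · exact fullcase hI (SqF_SqF hI hRS hR hS hf h1 h3) (SqF_SqF hI hRS hR hS hg h2 h4)

end Pool.Agent.Helper74.G4
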