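import Pool.Agent.Helper74.G4.C11

/-!
# G4-C12: separation, pairs with a gadget quadrangle
-/

set_option linter.all false

namespace Pool.Agent.Helper74.G4

open Pool.Agent.Helper22.G4

theorem facet_of {I : NF} {f : Fc} (hf : f ∈ I.data.fcodes) {d : OpD} (hd : d ∈ I.opds) {g : ℕ}
    (hg : g = d.g0 ∨ g = d.g1 ∨ g = d.g2) (h : f.2.2.2.1 = g + 1 ∨ f.2.2.2.2 = g + 1) :
    f ∈ OpD.facets I.M I.N d := by
  rcases NF.mem_fcodes.1 hf with h1 | ⟨a, s, h1, h2, h3, h4⟩ | ⟨e, he, h1⟩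
  · subst h1
    simp only [Fc.Q] at h
    omega
  · subst h4
    simp only [Fc.F] at h
    omega
  · have h2 : e.n = d.n := by
      simp only [OpD.g0, OpD.g1, OpD.g2] at hg
      simp only [OpD.facets, List.mem_cons, List.not_mem_nil, or_false] at h1
      rcases h1 with h1 | h1 | h1 | h1 | h1 | h1 | h1 | h1 | h1 | h1 | h1 | h1 | h1 | h1 | h1 | h1 |
        h1 | h1 | h1 | h1 | h1 | h1 | h1 | h1 | h1 | h1 | h1 <;>
      (subst h1
       simp only [Fc.Q, Fc.GX, Fc.GY, Fc.T0, Fc.G, OpD.g0, OpD.g1, OpD.g2, if_true,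
         Bool.false_eq_true, if_false] at h
       omega)
    rw [← NF.opds_inj he hd h2]
    exact h1

/-- a facet with `p g` or `q g` does not lie on page `0` -/
theorem no_zero {I : NF} (hI : I.OK) {f : Fc} (hf : f ∈ I.data.fcodes)
    (h : f.2.2.2.1 ≠ 0 ∨ f.2.2.2.2 ≠ 0) (h0 : HasPg f 0) : False := by
  rcases fcases hI hf with h | ⟨b, s, h2, h3, h4, h⟩ | ⟨d, hd, h⟩ | ⟨b, g, h2, h3, h | h⟩ |
    ⟨g, h⟩ | ⟨b, c, g, s, e, h2, h3, h4, h5, h6, h⟩ <;>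
  (subst h
   simp only [HasPg, Fc.Q, Fc.F, Fc.GX, Fc.GY, Fc.T0, Fc.G] at h h0
   omega)

/-- a facet with `p g` and `q g'` has `g = g'` -/
theorem same_g {I : NF} (hI : I.OK) {f : Fc} (hf : f ∈ I.data.fcodes)
    (h : f.2.2.2.1 ≠ 0) (h' : f.2.2.2.2 ≠ 0) : f.2.2.2.1 = f.2.2.2.2 := by
  rcases fcases hI hf with h | ⟨b, s, h2, h3, h4, h⟩ | ⟨d, hd, h⟩ | ⟨b, g, h2, h3, h | h⟩ |
    ⟨g, h⟩ | ⟨b, c, g, s, e, h2, h3, h4, h5, h6, h⟩ <;>
  (subst h
   simp only [Fc.Q, Fc.F, Fc.GX, Fc.GY, Fc.T0, Fc.G] at h h' ⊢)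
  all_goals try omega
  cases e
  · simp at h
  · simp

/-- raw conditions for the special edge of the gadget quadrangle 1 -/
def Raw1 (I : NF) (d : OpD) (f : Fc) : Prop :=
  f.2.2.2.2 = d.g0 + 1 ∧ HasPg f d.pa ∧ 0 ≤ f.2.1.2 ∧ f.2.1.1 ≤ d.z

theorem raw1_list {I : NF} (hI : I.OK) {f : Fc} (hf : f ∈ I.data.fcodes) {d : OpD}
    (hd : d ∈ I.opds) (h : Raw1 I d f) :
    f = Fc.GY I.N d.pa d.g0 ∨
      f = Fc.G I.N d.pb d.pa d.g0 (0, true) ∨
      f = Fc.G I.N d.pb d.pa d.g0 (d.y, true) ∨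
      f = Fc.G I.N d.pb d.pa d.g0 (d.z, false) := by
  have hn := NF.opd_ok hI hd
  have h1 := facet_of hf hd (g := d.g0) (by simp) (by first | exact Or.inl h.1 | exact Or.inr h.1)
  obtain ⟨h2, h3, h4, h5⟩ := h
  simp only [OpD.facets, List.mem_cons, List.not_mem_nil, or_false] at h1
  rcases h1 with h1 | h1 | h1 | h1 | h1 | h1 | h1 | h1 | h1 | h1 | h1 | h1 | h1 | h1 | h1 | h1 |
    h1 | h1 | h1 | h1 | h1 | h1 | h1 | h1 | h1 | h1 | h1 <;>
  first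
    | (exfalso
       subst h1
       simp only [HasPg, Fc.Q, Fc.GX, Fc.GY, Fc.T0, Fc.G, OpD.g0, OpD.g1, OpD.g2, OpD.pa, OpD.pb,
         OpD.pc, OpD.pd, if_true, Bool.false_eq_true, if_false] at h2 h3 h4 h5
       omega)
    | simp only [h1, true_or, or_true]

/-- raw conditions for the special edge of the gadget quadrangle 2 -/
def Raw2 (I : NF) (d : OpD) (f : Fc) : Prop :=
  f.2.2.2.1 = d.g0 + 1 ∧ HasPg f d.pb ∧ d.i ≤ f.2.1.2 ∧ f.2.1.1 ≤ d.x

theorem raw2_list {I : NF} (hI : I.OK) {f : Fc} (hf : f ∈ I.data.fcodes) {d : OpD}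
    (hd : d ∈ I.opds) (h : Raw2 I d f) :
    f = Fc.GX I.N d.pb d.g0 ∨
      f = Fc.G I.N d.pb d.pa d.g0 (d.i, true) ∨
      f = Fc.G I.N d.pb d.pa d.g0 (d.x, true) := by
  have hn := NF.opd_ok hI hd
  have h1 := facet_of hf hd (g := d.g0) (by simp) (by first | exact Or.inl h.1 | exact Or.inr h.1)
  obtain ⟨h2, h3, h4, h5⟩ := h
  simp only [OpD.facets, List.mem_cons, List.not_mem_nil, or_false] at h1
  rcases h1 with h1 | h1 | h1 | h1 | h1 | h1 | h1 | h1 | h1 | h1 | h1 | h1 | h1 | h1 | h1 | h1 |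
    h1 | h1 | h1 | h1 | h1 | h1 | h1 | h1 | h1 | h1 | h1 <;>
  first
    | (exfalso
       subst h1
       simp only [HasPg, Fc.Q, Fc.GX, Fc.GY, Fc.T0, Fc.G, OpD.g0, OpD.g1, OpD.g2, OpD.pa, OpD.pb,
         OpD.pc, OpD.pd, if_true, Bool.false_eq_true, if_false] at h2 h3 h4 h5
       omega)
    | simp only [h1, true_or, or_true]

/-- raw conditions for the special edge of the gadget quadrangle 3 -/
def Raw3 (I : NF) (d : OpD) (f : Fc) : Prop :=
  f.2.2.2.2 = d.g1 + 1 ∧ HasPg f d.pc ∧ 0 ≤ f.2.1.2 ∧ f.2.1.1 ≤ d.y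

theorem raw3_list {I : NF} (hI : I.OK) {f : Fc} (hf : f ∈ I.data.fcodes) {d : OpD}
    (hd : d ∈ I.opds) (h : Raw3 I d f) :
    f = Fc.GY I.N d.pc d.g1 ∨
      f = Fc.G I.N d.pb d.pc d.g1 (0, true) ∨
      f = Fc.G I.N d.pb d.pc d.g1 (d.y, true) := by
  have hn := NF.opd_ok hI hd
  have h1 := facet_of hf hd (g := d.g1) (by simp) (by first | exact Or.inl h.1 | exact Or.inr h.1)
  obtain ⟨h2, h3, h4, h5⟩ := h
  simp only [OpD.facets, List.mem_cons, List.not_mem_nil, or_false] at h1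
  rcases h1 with h1 | h1 | h1 | h1 | h1 | h1 | h1 | h1 | h1 | h1 | h1 | h1 | h1 | h1 | h1 | h1 |
    h1 | h1 | h1 | h1 | h1 | h1 | h1 | h1 | h1 | h1 | h1 <;>
  first
    | (exfalso
       subst h1
       simp only [HasPg, Fc.Q, Fc.GX, Fc.GY, Fc.T0, Fc.G, OpD.g0, OpD.g1, OpD.g2, OpD.pa, OpD.pb,
         OpD.pc, OpD.pd, if_true, Bool.false_eq_true, if_false] at h2 h3 h4 h5
       omega)
    | simp only [h1, true_or, or_true]

/-- raw conditions for the special edge of the gadget quadrangle 4 -/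
def Raw4 (I : NF) (d : OpD) (f : Fc) : Prop :=
  f.2.2.2.1 = d.g1 + 1 ∧ HasPg f d.pb ∧ d.y ≤ f.2.1.2 ∧ f.2.1.1 ≤ d.i

theorem raw4_list {I : NF} (hI : I.OK) {f : Fc} (hf : f ∈ I.data.fcodes) {d : OpD}
    (hd : d ∈ I.opds) (h : Raw4 I d f) :
    f = Fc.GX I.N d.pb d.g1 ∨
      f = Fc.G I.N d.pb d.pc d.g1 (d.y, true) ∨
      f = Fc.G I.N d.pb d.pc d.g1 (d.i, true) := by
  have hn := NF.opd_ok hI hd
  have h1 := facet_of hf hd (g := d.g1) (by simp) (by first | exact Or.inl h.1 | exact Or.inr h.1)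
  obtain ⟨h2, h3, h4, h5⟩ := h
  simp only [OpD.facets, List.mem_cons, List.not_mem_nil, or_false] at h1
  rcases h1 with h1 | h1 | h1 | h1 | h1 | h1 | h1 | h1 | h1 | h1 | h1 | h1 | h1 | h1 | h1 | h1 |
    h1 | h1 | h1 | h1 | h1 | h1 | h1 | h1 | h1 | h1 | h1 <;>
  first
    | (exfalso
       subst h1
       simp only [HasPg, Fc.Q, Fc.GX, Fc.GY, Fc.T0, Fc.G, OpD.g0, OpD.g1, OpD.g2, OpD.pa, OpD.pb,
         OpD.pc, OpD.pd, if_true, Bool.false_eq_true, if_false] at h2 h3 h4 h5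
       omega)
    | simp only [h1, true_or, or_true]

/-- raw conditions for the special edge of the gadget quadrangle 5 -/
def Raw5 (I : NF) (d : OpD) (f : Fc) : Prop :=
  f.2.2.2.1 = d.g1 + 1 ∧ HasPg f d.pb ∧ d.x ≤ f.2.1.2 ∧ f.2.1.1 ≤ I.N

theorem raw5_list {I : NF} (hI : I.OK) {f : Fc} (hf : f ∈ I.data.fcodes) {d : OpD}
    (hd : d ∈ I.opds) (h : Raw5 I d f) :
    f = Fc.GX I.N d.pb d.g1 ∨
      f = Fc.G I.N d.pb d.pc d.g1 (d.x, true) ∨
      f = Fc.G I.N d.pb d.pc d.g1 (I.N, true) := by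
  have hn := NF.opd_ok hI hd
  have h1 := facet_of hf hd (g := d.g1) (by simp) (by first | exact Or.inl h.1 | exact Or.inr h.1)
  obtain ⟨h2, h3, h4, h5⟩ := h
  simp only [OpD.facets, List.mem_cons, List.not_mem_nil, or_false] at h1
  rcases h1 with h1 | h1 | h1 | h1 | h1 | h1 | h1 | h1 | h1 | h1 | h1 | h1 | h1 | h1 | h1 | h1 |
    h1 | h1 | h1 | h1 | h1 | h1 | h1 | h1 | h1 | h1 | h1 <;>
  first
    | (exfalso
       subst h1
       simp only [HasPg, Fc.Q, Fc.GX, Fc.GY, Fc.T0, Fc.G, OpD.g0, OpD.g1, OpD.g2, OpD.pa, OpD.pb,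
         OpD.pc, OpD.pd, if_true, Bool.false_eq_true, if_false] at h2 h3 h4 h5
       omega)
    | simp only [h1, true_or, or_true]

/-- raw conditions for the special edge of the gadget quadrangle 6 -/
def Raw6 (I : NF) (d : OpD) (f : Fc) : Prop :=
  f.2.2.2.1 = d.g2 + 1 ∧ HasPg f d.pc ∧ 0 ≤ f.2.1.2 ∧ f.2.1.1 ≤ d.y

theorem raw6_list {I : NF} (hI : I.OK) {f : Fc} (hf : f ∈ I.data.fcodes) {d : OpD}
    (hd : d ∈ I.opds) (h : Raw6 I d f) :
    f = Fc.GX I.N d.pc d.g2 ∨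
      f = Fc.G I.N d.pc d.pd d.g2 (0, true) ∨
      f = Fc.G I.N d.pc d.pd d.g2 (d.y, true) := by
  have hn := NF.opd_ok hI hd
  have h1 := facet_of hf hd (g := d.g2) (by simp) (by first | exact Or.inl h.1 | exact Or.inr h.1)
  obtain ⟨h2, h3, h4, h5⟩ := h
  simp only [OpD.facets, List.mem_cons, List.not_mem_nil, or_false] at h1
  rcases h1 with h1 | h1 | h1 | h1 | h1 | h1 | h1 | h1 | h1 | h1 | h1 | h1 | h1 | h1 | h1 | h1 |
    h1 | h1 | h1 | h1 | h1 | h1 | h1 | h1 | h1 | h1 | h1 <;>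
  first
    | (exfalso
       subst h1
       simp only [HasPg, Fc.Q, Fc.GX, Fc.GY, Fc.T0, Fc.G, OpD.g0, OpD.g1, OpD.g2, OpD.pa, OpD.pb,
         OpD.pc, OpD.pd, if_true, Bool.false_eq_true, if_false] at h2 h3 h4 h5
       omega)
    | simp only [h1, true_or, or_true]

/-- raw conditions for the special edge of the gadget quadrangle 7 -/
def Raw7 (I : NF) (d : OpD) (f : Fc) : Prop :=
  f.2.2.2.2 = d.g2 + 1 ∧ HasPg f d.pd ∧ d.w ≤ f.2.1.2 ∧ f.2.1.1 ≤ I.N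

theorem raw7_list {I : NF} (hI : I.OK) {f : Fc} (hf : f ∈ I.data.fcodes) {d : OpD}
    (hd : d ∈ I.opds) (h : Raw7 I d f) :
    f = Fc.GY I.N d.pd d.g2 ∨
      f = Fc.G I.N d.pc d.pd d.g2 (d.w, false) ∨
      f = Fc.G I.N d.pc d.pd d.g2 (d.v, true) ∨
      f = Fc.G I.N d.pc d.pd d.g2 (I.N, true) := by
  have hn := NF.opd_ok hI hd
  have h1 := facet_of hf hd (g := d.g2) (by simp) (by first | exact Or.inl h.1 | exact Or.inr h.1)
  obtain ⟨h2, h3, h4, h5⟩ := h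
  simp only [OpD.facets, List.mem_cons, List.not_mem_nil, or_false] at h1
  rcases h1 with h1 | h1 | h1 | h1 | h1 | h1 | h1 | h1 | h1 | h1 | h1 | h1 | h1 | h1 | h1 | h1 |
    h1 | h1 | h1 | h1 | h1 | h1 | h1 | h1 | h1 | h1 | h1 <;>
  first
    | (exfalso
       subst h1
       simp only [HasPg, Fc.Q, Fc.GX, Fc.GY, Fc.T0, Fc.G, OpD.g0, OpD.g1, OpD.g2, OpD.pa, OpD.pb,
         OpD.pc, OpD.pd, if_true, Bool.false_eq_true, if_false] at h2 h3 h4 h5
       omega)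
    | simp only [h1, true_or, or_true]

/-- the gadget quadrangle number `k` -/
def Gq (I : NF) (d : OpD) (k : ℕ) : Option (Flat Vx Fc) := (OpD.flats I.M I.N d)[9 + k]?

theorem gq_cases {I : NF} {S : Flat Vx Fc}
    (hS : ∃ d ∈ I.opds, S ∈ (OpD.flats I.M I.N d).drop 10) :
    ∃ d ∈ I.opds, (Gq I d 1 = some S ∧ ∀ f, I.data.eIn S f = true → Raw1 I d f) ∨
      (Gq I d 2 = some S ∧ ∀ f, I.data.eIn S f = true → Raw2 I d f) ∨
      (Gq I d 3 = some S ∧ ∀ f, I.data.eIn S f = true → Raw3 I d f) ∨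
      (Gq I d 4 = some S ∧ ∀ f, I.data.eIn S f = true → Raw4 I d f) ∨
      (Gq I d 5 = some S ∧ ∀ f, I.data.eIn S f = true → Raw5 I d f) ∨
      (Gq I d 6 = some S ∧ ∀ f, I.data.eIn S f = true → Raw6 I d f) ∨
      (Gq I d 7 = some S ∧ ∀ f, I.data.eIn S f = true → Raw7 I d f) := by
  obtain ⟨d, hd, h⟩ := hS
  refine ⟨d, hd, ?_⟩
  simp only [OpD.flats, List.drop_succ_cons, List.drop_zero, List.mem_cons, List.not_mem_nil,
    or_false] at h
  rcases h with h | h | h | h | h | h | h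
  · refine Or.inl ?_
    subst h
    refine ⟨rfl, fun f hf => ?_⟩
    simp only [Data.eIn, NF.data, List.take_succ_cons, List.take_zero, List.all_cons, List.all_nil,
      Bool.and_true, Bool.and_eq_true, Fc.mem_p, Fc.mem_q, Fc.mem_u] at hf
    exact ⟨hf.1, hf.2⟩
  · refine Or.inr (Or.inl ?_)
    subst h
    refine ⟨rfl, fun f hf => ?_⟩
    simp only [Data.eIn, NF.data, List.take_succ_cons, List.take_zero, List.all_cons, List.all_nil,
      Bool.and_true, Bool.and_eq_true, Fc.mem_p, Fc.mem_q, Fc.mem_u] at hf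
    exact ⟨hf.1, hf.2⟩
  · refine Or.inr (Or.inr (Or.inl ?_))
    subst h
    refine ⟨rfl, fun f hf => ?_⟩
    simp only [Data.eIn, NF.data, List.take_succ_cons, List.take_zero, List.all_cons, List.all_nil,
      Bool.and_true, Bool.and_eq_true, Fc.mem_p, Fc.mem_q, Fc.mem_u] at hf
    exact ⟨hf.1, hf.2⟩
  · refine Or.inr (Or.inr (Or.inr (Or.inl ?_)))
    subst h
    refine ⟨rfl, fun f hf => ?_⟩
    simp only [Data.eIn, NF.data, List.take_succ_cons, List.take_zero, List.all_cons, List.all_nil,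
      Bool.and_true, Bool.and_eq_true, Fc.mem_p, Fc.mem_q, Fc.mem_u] at hf
    exact ⟨hf.1, hf.2⟩
  · refine Or.inr (Or.inr (Or.inr (Or.inr (Or.inl ?_))))
    subst h
    refine ⟨rfl, fun f hf => ?_⟩
    simp only [Data.eIn, NF.data, List.take_succ_cons, List.take_zero, List.all_cons, List.all_nil,
      Bool.and_true, Bool.and_eq_true, Fc.mem_p, Fc.mem_q, Fc.mem_u] at hf
    exact ⟨hf.1, hf.2⟩
  · refine Or.inr (Or.inr (Or.inr (Or.inr (Or.inr (Or.inl ?_)))))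
    subst h
    refine ⟨rfl, fun f hf => ?_⟩
    simp only [Data.eIn, NF.data, List.take_succ_cons, List.take_zero, List.all_cons, List.all_nil,
      Bool.and_true, Bool.and_eq_true, Fc.mem_p, Fc.mem_q, Fc.mem_u] at hf
    exact ⟨hf.1, hf.2⟩
  · refine Or.inr (Or.inr (Or.inr (Or.inr (Or.inr (Or.inr ?_)))))
    subst h
    refine ⟨rfl, fun f hf => ?_⟩
    simp only [Data.eIn, NF.data, List.take_succ_cons, List.take_zero, List.all_cons, List.all_nil,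
      Bool.and_true, Bool.and_eq_true, Fc.mem_p, Fc.mem_q, Fc.mem_u] at hf
    exact ⟨hf.1, hf.2⟩

theorem page_gad1 {I : NF} (hI : I.OK) {R : Flat Vx Fc} {a : ℕ} (hR : PgF I R a) {d : OpD}
    (hd : d ∈ I.opds) {f g : Fc} (hf : f ∈ I.data.fcodes) (hg : g ∈ I.data.fcodes)
    (h1 : I.data.eIn R f = true) (h2 : I.data.eIn R g = true) (h3 : Raw1 I d f)
    (h4 : Raw1 I d g) : f = g := by
  have hn := NF.opd_ok hI hd
  obtain ⟨e1, e2, e3⟩ := hR.edge h1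
  obtain ⟨e4, e5, e6⟩ := hR.edge h2
  rcases raw1_list hI hf hd h3 with h | h | h | h <;>
  rcases raw1_list hI hg hd h4 with k | k | k | k <;>
  first
    | exact h.trans k.symm
    | (exfalso
       subst h
       subst k
       simp only [HasPg, Fc.Q, Fc.GX, Fc.GY, Fc.T0, Fc.G, OpD.g0, OpD.g1, OpD.g2, OpD.pa, OpD.pb,
    OpD.pc, OpD.pd, if_true, Bool.false_eq_true, if_false, decide_eq_true_eq] at e1 e2 e3 e4 e5 e6
       omega)

theorem page_gad2 {I : NF} (hI : I.OK) {R : Flat Vx Fc} {a : ℕ} (hR : PgF I R a) {d : OpD}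
    (hd : d ∈ I.opds) {f g : Fc} (hf : f ∈ I.data.fcodes) (hg : g ∈ I.data.fcodes)
    (h1 : I.data.eIn R f = true) (h2 : I.data.eIn R g = true) (h3 : Raw2 I d f)
    (h4 : Raw2 I d g) : f = g := by
  have hn := NF.opd_ok hI hd
  obtain ⟨e1, e2, e3⟩ := hR.edge h1
  obtain ⟨e4, e5, e6⟩ := hR.edge h2
  rcases raw2_list hI hf hd h3 with h | h | h <;>
  rcases raw2_list hI hg hd h4 with k | k | k <;>
  first
    | exact h.trans k.symm
    | (exfalso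
       subst h
       subst k
       simp only [HasPg, Fc.Q, Fc.GX, Fc.GY, Fc.T0, Fc.G, OpD.g0, OpD.g1, OpD.g2, OpD.pa, OpD.pb,
    OpD.pc, OpD.pd, if_true, Bool.false_eq_true, if_false, decide_eq_true_eq] at e1 e2 e3 e4 e5 e6
       omega)

theorem page_gad3 {I : NF} (hI : I.OK) {R : Flat Vx Fc} {a : ℕ} (hR : PgF I R a) {d : OpD}
    (hd : d ∈ I.opds) {f g : Fc} (hf : f ∈ I.data.fcodes) (hg : g ∈ I.data.fcodes)
    (h1 : I.data.eIn R f = true) (h2 : I.data.eIn R g = true) (h3 : Raw3 I d f)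
    (h4 : Raw3 I d g) : f = g := by
  have hn := NF.opd_ok hI hd
  obtain ⟨e1, e2, e3⟩ := hR.edge h1
  obtain ⟨e4, e5, e6⟩ := hR.edge h2
  rcases raw3_list hI hf hd h3 with h | h | h <;>
  rcases raw3_list hI hg hd h4 with k | k | k <;>
  first
    | exact h.trans k.symm
    | (exfalso
       subst h
       subst k
       simp only [HasPg, Fc.Q, Fc.GX, Fc.GY, Fc.T0, Fc.G, OpD.g0, OpD.g1, OpD.g2, OpD.pa, OpD.pb,
    OpD.pc, OpD.pd, if_true, Bool.false_eq_true, if_false, decide_eq_true_eq] at e1 e2 e3 e4 e5 e6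
       omega)

theorem page_gad4 {I : NF} (hI : I.OK) {R : Flat Vx Fc} {a : ℕ} (hR : PgF I R a) {d : OpD}
    (hd : d ∈ I.opds) {f g : Fc} (hf : f ∈ I.data.fcodes) (hg : g ∈ I.data.fcodes)
    (h1 : I.data.eIn R f = true) (h2 : I.data.eIn R g = true) (h3 : Raw4 I d f)
    (h4 : Raw4 I d g) : f = g := by
  have hn := NF.opd_ok hI hd
  obtain ⟨e1, e2, e3⟩ := hR.edge h1
  obtain ⟨e4, e5, e6⟩ := hR.edge h2
  rcases raw4_list hI hf hd h3 with h | h | h <;>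
  rcases raw4_list hI hg hd h4 with k | k | k <;>
  first
    | exact h.trans k.symm
    | (exfalso
       subst h
       subst k
       simp only [HasPg, Fc.Q, Fc.GX, Fc.GY, Fc.T0, Fc.G, OpD.g0, OpD.g1, OpD.g2, OpD.pa, OpD.pb,
    OpD.pc, OpD.pd, if_true, Bool.false_eq_true, if_false, decide_eq_true_eq] at e1 e2 e3 e4 e5 e6
       omega)

theorem page_gad5 {I : NF} (hI : I.OK) {R : Flat Vx Fc} {a : ℕ} (hR : PgF I R a) {d : OpD}
    (hd : d ∈ I.opds) {f g : Fc} (hf : f ∈ I.data.fcodes) (hg : g ∈ I.data.fcodes)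
    (h1 : I.data.eIn R f = true) (h2 : I.data.eIn R g = true) (h3 : Raw5 I d f)
    (h4 : Raw5 I d g) : f = g := by
  have hn := NF.opd_ok hI hd
  obtain ⟨e1, e2, e3⟩ := hR.edge h1
  obtain ⟨e4, e5, e6⟩ := hR.edge h2
  rcases raw5_list hI hf hd h3 with h | h | h <;>
  rcases raw5_list hI hg hd h4 with k | k | k <;>
  first
    | exact h.trans k.symm
    | (exfalso
       subst h
       subst k
       simp only [HasPg, Fc.Q, Fc.GX, Fc.GY, Fc.T0, Fc.G, OpD.g0, OpD.g1, OpD.g2, OpD.pa, OpD.pb,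
    OpD.pc, OpD.pd, if_true, Bool.false_eq_true, if_false, decide_eq_true_eq] at e1 e2 e3 e4 e5 e6
       omega)

theorem page_gad6 {I : NF} (hI : I.OK) {R : Flat Vx Fc} {a : ℕ} (hR : PgF I R a) {d : OpD}
    (hd : d ∈ I.opds) {f g : Fc} (hf : f ∈ I.data.fcodes) (hg : g ∈ I.data.fcodes)
    (h1 : I.data.eIn R f = true) (h2 : I.data.eIn R g = true) (h3 : Raw6 I d f)
    (h4 : Raw6 I d g) : f = g := by
  have hn := NF.opd_ok hI hd
  obtain ⟨e1, e2, e3⟩ := hR.edge h1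
  obtain ⟨e4, e5, e6⟩ := hR.edge h2
  rcases raw6_list hI hf hd h3 with h | h | h <;>
  rcases raw6_list hI hg hd h4 with k | k | k <;>
  first
    | exact h.trans k.symm
    | (exfalso
       subst h
       subst k
       simp only [HasPg, Fc.Q, Fc.GX, Fc.GY, Fc.T0, Fc.G, OpD.g0, OpD.g1, OpD.g2, OpD.pa, OpD.pb,
    OpD.pc, OpD.pd, if_true, Bool.false_eq_true, if_false, decide_eq_true_eq] at e1 e2 e3 e4 e5 e6
       omega)

theorem page_gad7 {I : NF} (hI : I.OK) {R : Flat Vx Fc} {a : ℕ} (hR : PgF I R a) {d : OpD}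
    (hd : d ∈ I.opds) {f g : Fc} (hf : f ∈ I.data.fcodes) (hg : g ∈ I.data.fcodes)
    (h1 : I.data.eIn R f = true) (h2 : I.data.eIn R g = true) (h3 : Raw7 I d f)
    (h4 : Raw7 I d g) : f = g := by
  have hn := NF.opd_ok hI hd
  obtain ⟨e1, e2, e3⟩ := hR.edge h1
  obtain ⟨e4, e5, e6⟩ := hR.edge h2
  rcases raw7_list hI hf hd h3 with h | h | h | h <;>
  rcases raw7_list hI hg hd h4 with k | k | k | k <;>
  first
    | exact h.trans k.symm
    | (exfalso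
       subst h
       subst k
       simp only [HasPg, Fc.Q, Fc.GX, Fc.GY, Fc.T0, Fc.G, OpD.g0, OpD.g1, OpD.g2, OpD.pa, OpD.pb,
    OpD.pc, OpD.pd, if_true, Bool.false_eq_true, if_false, decide_eq_true_eq] at e1 e2 e3 e4 e5 e6
       omega)

theorem pair12 {I : NF} (hI : I.OK) {d : OpD}
    (hd : d ∈ I.opds) {f g : Fc} (hf : f ∈ I.data.fcodes) (hg : g ∈ I.data.fcodes)
    (h1 : Raw1 I d f) (h2 : Raw1 I d g) (h3 : Raw2 I d f)
    (h4 : Raw2 I d g) : f = g := by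
  have hn := NF.opd_ok hI hd
  obtain ⟨e1, e2, e3, e4⟩ := h3
  obtain ⟨c1, c2, c3, c4⟩ := h4
  rcases raw1_list hI hf hd h1 with h | h | h | h <;>
  rcases raw1_list hI hg hd h2 with k | k | k | k <;>
  first
    | exact h.trans k.symm
    | (exfalso
       subst h
       subst k
       simp only [HasPg, Fc.Q, Fc.GX, Fc.GY, Fc.T0, Fc.G, OpD.g0, OpD.g1, OpD.g2, OpD.pa, OpD.pb,
    OpD.pc, OpD.pd, if_true, Bool.false_eq_true, if_false, decide_eq_true_eq] at e1 e2 e3 e4 c1 c2 c3 c4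
       omega)

theorem pair34 {I : NF} (hI : I.OK) {d : OpD}
    (hd : d ∈ I.opds) {f g : Fc} (hf : f ∈ I.data.fcodes) (hg : g ∈ I.data.fcodes)
    (h1 : Raw3 I d f) (h2 : Raw3 I d g) (h3 : Raw4 I d f)
    (h4 : Raw4 I d g) : f = g := by
  have hn := NF.opd_ok hI hd
  obtain ⟨e1, e2, e3, e4⟩ := h3
  obtain ⟨c1, c2, c3, c4⟩ := h4
  rcases raw3_list hI hf hd h1 with h | h | h <;>
  rcases raw3_list hI hg hd h2 with k | k | k <;>
  first
    | exact h.trans k.symm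
    | (exfalso
       subst h
       subst k
       simp only [HasPg, Fc.Q, Fc.GX, Fc.GY, Fc.T0, Fc.G, OpD.g0, OpD.g1, OpD.g2, OpD.pa, OpD.pb,
    OpD.pc, OpD.pd, if_true, Bool.false_eq_true, if_false, decide_eq_true_eq] at e1 e2 e3 e4 c1 c2 c3 c4
       omega)

theorem pair35 {I : NF} (hI : I.OK) {d : OpD}
    (hd : d ∈ I.opds) {f g : Fc} (hf : f ∈ I.data.fcodes) (hg : g ∈ I.data.fcodes)
    (h1 : Raw3 I d f) (h2 : Raw3 I d g) (h3 : Raw5 I d f)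
    (h4 : Raw5 I d g) : f = g := by
  have hn := NF.opd_ok hI hd
  obtain ⟨e1, e2, e3, e4⟩ := h3
  obtain ⟨c1, c2, c3, c4⟩ := h4
  rcases raw3_list hI hf hd h1 with h | h | h <;>
  rcases raw3_list hI hg hd h2 with k | k | k <;>
  first
    | exact h.trans k.symm
    | (exfalso
       subst h
       subst k
       simp only [HasPg, Fc.Q, Fc.GX, Fc.GY, Fc.T0, Fc.G, OpD.g0, OpD.g1, OpD.g2, OpD.pa, OpD.pb,
    OpD.pc, OpD.pd, if_true, Bool.false_eq_true, if_false, decide_eq_true_eq] at e1 e2 e3 e4 c1 c2 c3 c4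
       omega)

theorem pair45 {I : NF} (hI : I.OK) {d : OpD}
    (hd : d ∈ I.opds) {f g : Fc} (hf : f ∈ I.data.fcodes) (hg : g ∈ I.data.fcodes)
    (h1 : Raw4 I d f) (h2 : Raw4 I d g) (h3 : Raw5 I d f)
    (h4 : Raw5 I d g) : f = g := by
  have hn := NF.opd_ok hI hd
  obtain ⟨e1, e2, e3, e4⟩ := h3
  obtain ⟨c1, c2, c3, c4⟩ := h4
  rcases raw4_list hI hf hd h1 with h | h | h <;>
  rcases raw4_list hI hg hd h2 with k | k | k <;>
  first
    | exact h.trans k.symm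
    | (exfalso
       subst h
       subst k
       simp only [HasPg, Fc.Q, Fc.GX, Fc.GY, Fc.T0, Fc.G, OpD.g0, OpD.g1, OpD.g2, OpD.pa, OpD.pb,
    OpD.pc, OpD.pd, if_true, Bool.false_eq_true, if_false, decide_eq_true_eq] at e1 e2 e3 e4 c1 c2 c3 c4
       omega)

theorem pair67 {I : NF} (hI : I.OK) {d : OpD}
    (hd : d ∈ I.opds) {f g : Fc} (hf : f ∈ I.data.fcodes) (hg : g ∈ I.data.fcodes)
    (h1 : Raw6 I d f) (h2 : Raw6 I d g) (h3 : Raw7 I d f)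
    (h4 : Raw7 I d g) : f = g := by
  have hn := NF.opd_ok hI hd
  obtain ⟨e1, e2, e3, e4⟩ := h3
  obtain ⟨c1, c2, c3, c4⟩ := h4
  rcases raw6_list hI hf hd h1 with h | h | h <;>
  rcases raw6_list hI hg hd h2 with k | k | k <;>
  first
    | exact h.trans k.symm
    | (exfalso
       subst h
       subst k
       simp only [HasPg, Fc.Q, Fc.GX, Fc.GY, Fc.T0, Fc.G, OpD.g0, OpD.g1, OpD.g2, OpD.pa, OpD.pb,
    OpD.pc, OpD.pd, if_true, Bool.false_eq_true, if_false, decide_eq_true_eq] at e1 e2 e3 e4 c1 c2 c3 c4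
       omega)

/-- G4-C12 (separation, pairs with a gadget quadrangle). -/
theorem NF.sep_gadgets {I : NF} (hI : I.OK) (R S : Flat Vx Fc) (hRS : R ≠ S)
    (hR : R ∈ I.data.flats) (hS : ∃ d ∈ I.opds, S ∈ (OpD.flats I.M I.N d).drop 10) :
    ∀ f ∈ I.data.fcodes, ∀ g ∈ I.data.fcodes, I.data.eIn R f → I.data.eIn R g →
      I.data.eIn S f → I.data.eIn S g → f = g := by
  intro f hf g hg h1 h2 h3 h4
  obtain ⟨d, hd, hS⟩ := gq_cases hS
  have hpos : f.2.2.2.1 ≠ 0 ∨ f.2.2.2.2 ≠ 0 := by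
    rcases hS with ⟨-, hS⟩ | ⟨-, hS⟩ | ⟨-, hS⟩ | ⟨-, hS⟩ | ⟨-, hS⟩ | ⟨-, hS⟩ | ⟨-, hS⟩ <;>
    (have := (hS f h3).1
     omega)
  have hR' : (R = I.page0 ∨ ∃ d ∈ I.opds, R ∈ (OpD.flats I.M I.N d).take 10) ∨
      ∃ d ∈ I.opds, R ∈ (OpD.flats I.M I.N d).drop 10 := by
    rcases NF.mem_flats.1 hR with h | ⟨e, he, h⟩
    · exact Or.inl (Or.inl h)
    · rw [← List.take_append_drop 10 (OpD.flats I.M I.N e), List.mem_append] at h
      rcases h with h | h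
      · exact Or.inl (Or.inr ⟨e, he, h⟩)
      · exact Or.inr ⟨e, he, h⟩
  rcases hR' with hR' | hR'
  · rcases kinds hR' with hR' | ⟨a, hR'⟩ | ⟨a, s, hR'⟩
    · subst hR'
      exact (no_zero hI hf hpos (page0_edge hI h1).1).elim
    · rcases hS with ⟨-, hS⟩ | ⟨-, hS⟩ | ⟨-, hS⟩ | ⟨-, hS⟩ | ⟨-, hS⟩ | ⟨-, hS⟩ | ⟨-, hS⟩
      · exact page_gad1 hI hR' hd hf hg h1 h2 (hS f h3) (hS g h4)
      · exact page_gad2 hI hR' hd hf hg h1 h2 (hS f h3) (hS g h4)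
      · exact page_gad3 hI hR' hd hf hg h1 h2 (hS f h3) (hS g h4)
      · exact page_gad4 hI hR' hd hf hg h1 h2 (hS f h3) (hS g h4)
      · exact page_gad5 hI hR' hd hf hg h1 h2 (hS f h3) (hS g h4)
      · exact page_gad6 hI hR' hd hf hg h1 h2 (hS f h3) (hS g h4)
      · exact page_gad7 hI hR' hd hf hg h1 h2 (hS f h3) (hS g h4)
    · exact (no_zero hI hf hpos (hR'.edge hI h1).1).elim
  · obtain ⟨e, he, hR'⟩ := gq_cases hR'
    have hsame := same_g hI hf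
    have hde : d = e := by
      apply NF.opds_inj hd he
      rcases hS with ⟨-, hS⟩ | ⟨-, hS⟩ | ⟨-, hS⟩ | ⟨-, hS⟩ | ⟨-, hS⟩ | ⟨-, hS⟩ | ⟨-, hS⟩ <;>
      rcases hR' with ⟨-, hR'⟩ | ⟨-, hR'⟩ | ⟨-, hR'⟩ | ⟨-, hR'⟩ | ⟨-, hR'⟩ | ⟨-, hR'⟩ | ⟨-, hR'⟩ <;>
      (have e1 := (hS f h3).1
       have e2 := (hR' f h1).1
       simp only [OpD.g0, OpD.g1, OpD.g2] at e1 e2
       omega)
    subst hde
    rcases hS with ⟨k1, hS⟩ | ⟨k1, hS⟩ | ⟨k1, hS⟩ | ⟨k1, hS⟩ | ⟨k1, hS⟩ | ⟨k1, hS⟩ | ⟨k1, hS⟩ <;>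
    rcases hR' with ⟨k2, hR'⟩ | ⟨k2, hR'⟩ | ⟨k2, hR'⟩ | ⟨k2, hR'⟩ | ⟨k2, hR'⟩ | ⟨k2, hR'⟩ |
      ⟨k2, hR'⟩ <;>
    first
      | exact absurd (Option.some.inj (k2.symm.trans k1)) hRS
      | exact pair12 hI hd hf hg (hS f h3) (hS g h4) (hR' f h1) (hR' g h2)
      | exact pair12 hI hd hf hg (hR' f h1) (hR' g h2) (hS f h3) (hS g h4)
      | exact pair34 hI hd hf hg (hS f h3) (hS g h4) (hR' f h1) (hR' g h2)
      | exact pair34 hI hd hf hg (hR' f h1) (hR' g h2) (hS f h3) (hS g h4)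
      | exact pair35 hI hd hf hg (hS f h3) (hS g h4) (hR' f h1) (hR' g h2)
      | exact pair35 hI hd hf hg (hR' f h1) (hR' g h2) (hS f h3) (hS g h4)
      | exact pair45 hI hd hf hg (hS f h3) (hS g h4) (hR' f h1) (hR' g h2)
      | exact pair45 hI hd hf hg (hR' f h1) (hR' g h2) (hS f h3) (hS g h4)
      | exact pair67 hI hd hf hg (hS f h3) (hS g h4) (hR' f h1) (hR' g h2)
      | exact pair67 hI hd hf hg (hR' f h1) (hR' g h2) (hS f h3) (hS g h4)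
      | (exfalso
         have e1 := (hS f h3).1
         have e2 := (hR' f h1).1
         simp only [OpD.g0, OpD.g1, OpD.g2] at e1 e2
         omega)

end Pool.Agent.Helper74.G4
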