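import Pool.Agent.Helper22.G4.Cone
import Pool.Agent.Helper22.G4.St.P2
import Pool.Agent.Helper22.G4.St.P3

/-!
# G4-P5: removal of a simple vertex whose neighbours are pairwise adjacent
-/

namespace Pool.Agent.Helper74.G4

open Submodule Pool.Agent.Helper22.G4

variable {V E : Type*} [AddCommGroup E] [Module ℝ E]

theorem vert_fun {c : V → E} {A : Finset V} (hc : Conf c A) {w : V} (hw : w ∈ A) :
    ∃ f : E →ₗ[ℝ] ℝ, f (c w) = 0 ∧ ∀ v ∈ A, v ≠ w → 0 < f (c v) := by
  obtain ⟨-, f, h1, h2⟩ := hc.vert w hw
  refine ⟨f, (h2 w hw).2 rfl, fun v hv hne => ?_⟩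
  refine lt_of_le_of_ne (h1 v hv) fun h => hne ?_
  exact (h2 v hv).1 h.symm

theorem exists_functional {ι : Type*} {v : ι → E} (hv : LinearIndependent ℝ v) (y : ι → ℝ) :
    ∃ g : E →ₗ[ℝ] ℝ, ∀ i, g (v i) = y i := by
  classical
  obtain ⟨g, hg⟩ := LinearMap.exists_extend ((Module.Basis.span hv).constr ℝ y)
  refine ⟨g, fun i => ?_⟩
  have h1 : ((Module.Basis.span hv).constr ℝ y) ((Module.Basis.span hv) i) = y i :=
    (Module.Basis.span hv).constr_basis ℝ y i
  rw [← hg] at h1
  rw [← h1]
  simp [Module.Basis.span_apply]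

/-- G4-P5 (removal of a simple vertex whose neighbours are pairwise adjacent). -/
theorem simple_vertex [DecidableEq V] {c : V → E} {A : Finset V} (hc : Conf c A)
    (hr : rk c (A : Set V) = 5) {z : V} (hz : z ∈ A) {T : Finset V} (hT : T.card = 4)
    (hTA : T ⊆ A.erase z) (hnb : ∀ t ∈ A, t ≠ z → (FaceOn c A {z, t} ↔ t ∈ T))
    (hK : ∀ s ∈ T, ∀ t ∈ T, s ≠ t → FaceOn c A {s, t}) (h6 : ∃ w ∈ A, w ≠ z ∧ w ∉ T) :
    Conf c (A.erase z) ∧ rk c (A.erase z : Set V) = 5 ∧
      (∀ u ∈ A.erase z, ∀ v ∈ A.erase z, u ≠ v →
        (FaceOn c (A.erase z) {u, v} ↔ FaceOn c A {u, v})) ∧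
      FaceOn c (A.erase z) (T : Set V) ∧ LinearIndependent ℝ (fun t : T => c t) := by
  have hzT : z ∉ T := fun h => by simpa using hTA h
  have hTA' : T ⊆ A := hTA.trans (Finset.erase_subset _ _)
  -- the representation of all vectors
  have hrep : ∀ w ∈ A, ∃ (a : ℝ) (b : V → ℝ), (∀ t ∈ T, 0 ≤ b t) ∧
      c w = a • c z + ∑ t ∈ T, b t • c t := by
    intro w hw
    obtain ⟨a, b, h1, h2, h3⟩ := core hc hz hw
    refine ⟨a, b, fun t ht => h1 t (hTA' ht), ?_⟩
    rw [h3]
    congr 1
    symm
    apply Finset.sum_subset hTA'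
    intro t ht htT
    by_cases hb : b t = 0
    · simp [hb]
    · exact absurd ((hnb t ht (h2 t ht hb).1).1 (h2 t ht hb).2) htT
  -- z and T are a basis
  have hspan : span ℝ (c '' (A : Set V)) = span ℝ (c '' ((insert z T : Finset V) : Set V)) := by
    apply le_antisymm
    · rw [span_le]
      rintro _ ⟨w, hw, rfl⟩
      obtain ⟨a, b, -, h3⟩ := hrep w hw
      rw [h3]
      refine add_mem (smul_mem _ _ (subset_span ⟨z, by simp, rfl⟩)) (sum_mem fun t ht => ?_)
      exact smul_mem _ _ (subset_span ⟨t, by simp [ht], rfl⟩)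
    · apply span_mono
      apply Set.image_mono
      intro t ht
      rcases Finset.mem_insert.1 ht with rfl | ht
      · exact hz
      · exact hTA' ht
  have hcard : (insert z T).card = 5 := by rw [Finset.card_insert_of_notMem hzT, hT]
  have hli : LinearIndependent ℝ (fun t : (insert z T : Finset V) => c t) := by
    rw [linearIndependent_iff_card_eq_finrank_span]
    have h1 : Set.range (fun t : (insert z T : Finset V) => c t) =
        c '' ((insert z T : Finset V) : Set V) := by
      ext x
      simp
    rw [Set.finrank, h1, ← hspan]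
    rw [Fintype.card_coe, hcard]
    exact hr.symm
  have hliT : LinearIndependent ℝ (fun t : T => c t) := by
    have := hli.comp (fun t : T => (⟨t.1, Finset.mem_insert_of_mem t.2⟩ : (insert z T : Finset V)))
      (fun s t h => by
        have := congrArg (fun x : (insert z T : Finset V) => (x : V)) h
        exact Subtype.ext this)
    exact this
  obtain ⟨g, hg⟩ := exists_functional hli (fun t => if (t : V) = z then -1 else 0)
  have hgz : g (c z) = -1 := by
    have := hg ⟨z, Finset.mem_insert_self _ _⟩
    simpa using this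
  have hgT : ∀ t ∈ T, g (c t) = 0 := by
    intro t ht
    have := hg ⟨t, Finset.mem_insert_of_mem ht⟩
    have h2 : t ≠ z := fun h => hzT (h ▸ ht)
    simpa [h2] using this
  -- the coefficient of z is negative
  have hneg : ∀ w ∈ A, w ≠ z → w ∉ T → ∀ (a : ℝ) (b : V → ℝ), (∀ t ∈ T, 0 ≤ b t) →
      c w = a • c z + ∑ t ∈ T, b t • c t → a < 0 := by
    intro w hw hwz hwT a b hb h3
    by_contra ha
    push Not at ha
    obtain ⟨f, hf0, hf1⟩ := vert_fun hc hw
    have h4 : 0 = a * f (c z) + ∑ t ∈ T, b t * f (c t) := by
      have := congrArg f h3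
      simpa [hf0, map_sum] using this
    have h5 : ∀ t ∈ T, 0 ≤ b t * f (c t) := fun t ht =>
      mul_nonneg (hb t ht) (hf1 t (hTA' ht) (fun h => hwT (h ▸ ht))).le
    have hfz := hf1 z hz (Ne.symm hwz)
    have h6 : 0 ≤ ∑ t ∈ T, b t * f (c t) := Finset.sum_nonneg h5
    have h7 : 0 ≤ a * f (c z) := mul_nonneg ha hfz.le
    have h8 : ∑ t ∈ T, b t * f (c t) = 0 := by linarith
    have h9 : a * f (c z) = 0 := by linarith
    have ha0 : a = 0 := by
      rcases mul_eq_zero.1 h9 with h | h
      · exact h
      · exact absurd h hfz.ne'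
    have hb0 : ∀ t ∈ T, b t = 0 := by
      intro t ht
      rcases mul_eq_zero.1 ((Finset.sum_eq_zero_iff_of_nonneg h5).1 h8 t ht) with h | h
      · exact h
      · exact absurd h (hf1 t (hTA' ht) (fun h => hwT (h ▸ ht))).ne'
    have h10 : c w = 0 := by
      rw [h3, ha0, zero_smul, zero_add]
      exact Finset.sum_eq_zero fun t ht => by rw [hb0 t ht, zero_smul]
    obtain ⟨h, hh⟩ := hc.pos
    have := hh w hw
    rw [h10, map_zero] at this
    exact lt_irrefl _ this
  have hcz : Conf c (A.erase z) := hc.restrict (Finset.erase_subset _ _)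
  have hgpos : ∀ w ∈ A, w ≠ z → w ∉ T → 0 < g (c w) := by
    intro w hw hwz hwT
    obtain ⟨a, b, hb, h3⟩ := hrep w hw
    have ha := hneg w hw hwz hwT a b hb h3
    have : g (c w) = -a := by
      rw [h3, map_add, map_smul, map_sum, hgz]
      rw [Finset.sum_eq_zero fun t ht => by rw [map_smul, hgT t ht, smul_zero]]
      simp
    rw [this]
    linarith
  refine ⟨hcz, ?_, ?_, ?_, hliT⟩
  · -- the rank
    have : span ℝ (c '' ((A.erase z : Finset V) : Set V)) = span ℝ (c '' (A : Set V)) := by
      apply le_antisymm
      · apply span_mono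
        apply Set.image_mono
        intro t ht
        exact Finset.mem_of_mem_erase ht
      · rw [hspan, span_le]
        rintro _ ⟨w, hw, rfl⟩
        rcases Finset.mem_insert.1 hw with rfl | hw
        · obtain ⟨w', hw', hwz, hwT⟩ := h6
          obtain ⟨a, b, hb, h3⟩ := hrep w' hw'
          have ha := hneg w' hw' hwz hwT a b hb h3
          have h4 : c w = a⁻¹ • (c w' - ∑ t ∈ T, b t • c t) := by
            rw [h3, add_sub_cancel_right, smul_smul, inv_mul_cancel₀ ha.ne, one_smul]
          rw [h4]
          refine smul_mem _ _ (sub_mem (subset_span ⟨w', by simp [hw', hwz], rfl⟩)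
            (sum_mem fun t ht => ?_))
          exact smul_mem _ _ (subset_span ⟨t, hTA ht, rfl⟩)
        · exact subset_span ⟨w, hTA hw, rfl⟩
    rw [← hr, rk, rk, this]
  · -- the edges
    -- the main implication
    have key : ∀ u ∈ A.erase z, ∀ v ∈ A.erase z, u ≠ v → u ∉ T →
        FaceOn c (A.erase z) {u, v} → FaceOn c A {u, v} := by
      intro u hu v hv huv huT hF
      obtain ⟨huz, huA⟩ := Finset.mem_erase.1 hu
      obtain ⟨hvz, hvA⟩ := Finset.mem_erase.1 hv
      obtain ⟨-, f, hf0, hf1⟩ := hF
      obtain ⟨a, b, hb, h3⟩ := hrep u huA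
      have ha := hneg u huA huz huT a b hb h3
      have hfu : f (c u) = 0 := (hf1 u hu).2 (by simp)
      have h4 : 0 = a * f (c z) + ∑ t ∈ T, b t * f (c t) := by
        have := congrArg f h3
        simpa [hfu, map_sum] using this
      have h5 : ∀ t ∈ T, 0 ≤ b t * f (c t) := fun t ht =>
        mul_nonneg (hb t ht) (hf0 t (hTA ht))
      have h6 : 0 ≤ ∑ t ∈ T, b t * f (c t) := Finset.sum_nonneg h5
      have hfz0 : 0 ≤ f (c z) := by
        by_contra hlt
        push Not at hlt
        nlinarith [mul_pos_of_neg_of_neg ha hlt]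
      have hfz : 0 < f (c z) := by
        refine lt_of_le_of_ne hfz0 fun h0 => ?_
        rw [← h0, mul_zero, zero_add] at h4
        have h7 := (Finset.sum_eq_zero_iff_of_nonneg h5).1 h4.symm
        obtain ⟨k, hk0, hk1⟩ := vert_fun hc hvA
        have h8 : k (c u) = a * k (c z) + ∑ t ∈ T, b t * k (c t) := by
          have := congrArg k h3
          simpa [map_sum] using this
        have h9 : ∑ t ∈ T, b t * k (c t) = 0 := by
          apply Finset.sum_eq_zero
          intro t ht
          by_cases htv : t = v
          · rw [htv, hk0, mul_zero]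
          · have hft : f (c t) ≠ 0 := by
              intro h
              have := (hf1 t (hTA ht)).1 h
              rcases this with h | h
              · exact huT (h ▸ ht)
              · exact htv h
            rcases mul_eq_zero.1 (h7 t ht) with h | h
            · rw [h, zero_mul]
            · exact absurd h hft
        have h10 := hk1 u huA huv
        have h11 := hk1 z hz (Ne.symm hvz)
        rw [h8, h9, add_zero] at h10
        nlinarith [mul_neg_of_neg_of_pos ha h11]
      refine ⟨?_, f, ?_, ?_⟩
      · intro t ht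
        rcases ht with rfl | ht
        · exact huA
        · rw [Set.mem_singleton_iff] at ht
          rw [ht]
          exact hvA
      · intro w hw
        by_cases hwz : w = z
        · rw [hwz]; exact hfz0
        · exact hf0 w (Finset.mem_erase.2 ⟨hwz, hw⟩)
      · intro w hw
        by_cases hwz : w = z
        · rw [hwz]
          constructor
          · intro h
            exact absurd h hfz.ne'
          · intro h
            rcases h with h | h
            · exact absurd h.symm huz
            · exact absurd h.symm hvz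
        · exact hf1 w (Finset.mem_erase.2 ⟨hwz, hw⟩)
    intro u hu v hv huv
    constructor
    · intro hF
      by_cases huT : u ∈ T
      · by_cases hvT : v ∈ T
        · exact hK u huT v hvT huv
        · rw [Set.pair_comm] at hF ⊢
          exact key v hv u hu (Ne.symm huv) hvT hF
      · exact key u hu v hv huv huT hF
    · intro hF
      apply hF.restrict (Finset.erase_subset _ _)
      intro t ht
      rcases ht with rfl | ht
      · exact hu
      · rw [Set.mem_singleton_iff] at ht
        rw [ht]
        exact hv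
  · -- the face T
    refine ⟨hTA, g, ?_, ?_⟩
    · intro w hw
      obtain ⟨hwz, hwA⟩ := Finset.mem_erase.1 hw
      by_cases hwT : w ∈ T
      · rw [hgT w hwT]
      · exact (hgpos w hwA hwz hwT).le
    · intro w hw
      obtain ⟨hwz, hwA⟩ := Finset.mem_erase.1 hw
      constructor
      · intro h
        by_contra hwT
        exact absurd h (hgpos w hwA hwz hwT).ne'
      · intro h
        exact hgT w h

end Pool.Agent.Helper74.G4
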